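import Mathlib
import Pool.Agent.Q96.PExtThree

/-!
# Absolute p-extendability of doubling spaces as `p` tends to `0`

A single three-point metric space with doubling constant `2` already has
`ae_p(N) / ae_1(N) → ∞` as `p → 0`.
-/

set_option autoImplicit false

open Filter Topology Set
open scoped ENNReal

namespace Pool.Agent.Results.MP_d7144b_an.UnboundedRatio

open Q96.PExt

/-- every closed ball of radius `2 r > 0` is covered by `n` closed balls of radius `r` -/
def DoublingWith (N : Type) [MetricSpace N] (n : ℕ) : Prop :=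
  ∀ (x : N) (r : ℝ), 0 < r → ∃ s : Finset N, s.card ≤ n ∧
    Metric.closedBall x (2 * r) ⊆ ⋃ y ∈ s, Metric.closedBall y r

lemma doubling_three : DoublingWith (three 2) 2 := by
  classical
  set a : three 2 := ⟨(0, 0), by simp [three]⟩ with ha
  set b : three 2 := ⟨(1, 0), by simp [three]⟩ with hb
  set x : three 2 := ⟨(1 / 2, 2), by simp [three]⟩ with hx
  have hab : dist a b = 1 := by rw [Subtype.dist_eq]; exact dist_ab
  have hax : dist a x = 2 := by
    rw [Subtype.dist_eq]; exact dist_line 0 2 (by norm_num) le_rfl zero_le_one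
  have hbx : dist b x = 2 := by
    rw [Subtype.dist_eq]; exact dist_line 1 2 (by norm_num) zero_le_one le_rfl
  have hall : ∀ z : three 2, z = a ∨ z = b ∨ z = x := by
    rintro ⟨z, hz⟩
    simp only [three, mem_insert_iff, mem_singleton_iff] at hz
    rcases hz with rfl | rfl | rfl
    · left; rfl
    · right; left; rfl
    · right; right; rfl
  intro z r hr
  by_cases h1 : 1 ≤ r
  · refine ⟨{a, x}, Finset.card_le_two, fun w _ => ?_⟩
    simp only [mem_iUnion, Metric.mem_closedBall]
    rcases hall w with rfl | rfl | rfl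
    · exact ⟨a, by simp, by simp; linarith⟩
    · exact ⟨a, by simp, by rw [dist_comm, hab]; exact h1⟩
    · exact ⟨x, by simp, by simp; linarith⟩
  · push Not at h1
    rcases hall z with rfl | rfl | rfl
    · refine ⟨{a, b}, Finset.card_le_two, fun w hw => ?_⟩
      simp only [mem_iUnion, Metric.mem_closedBall] at hw ⊢
      rcases hall w with rfl | rfl | rfl
      · exact ⟨a, by simp, by simp; linarith⟩
      · exact ⟨b, by simp, by simp; linarith⟩
      · rw [dist_comm, hax] at hw; linarith
    · refine ⟨{a, b}, Finset.card_le_two, fun w hw => ?_⟩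
      simp only [mem_iUnion, Metric.mem_closedBall] at hw ⊢
      rcases hall w with rfl | rfl | rfl
      · exact ⟨a, by simp, by simp; linarith⟩
      · exact ⟨b, by simp, by simp; linarith⟩
      · rw [dist_comm, hbx] at hw; linarith
    · refine ⟨{x}, by simp, fun w hw => ?_⟩
      simp only [mem_iUnion, Metric.mem_closedBall] at hw ⊢
      rcases hall w with rfl | rfl | rfl
      · rw [hax] at hw; linarith
      · rw [hbx] at hw; linarith
      · exact ⟨x, by simp, by simp; linarith⟩

/-- **Positive answer.** For every `n ≥ 2` the supremum, over all doubling metric spaces `N` with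
`λ_N ≤ n`, of `lim_{p → 0} ae_p(N) / ae_1(N)` is infinite. -/
theorem result (n : ℕ) (hn : 2 ≤ n) :
    sSup {L : ℝ≥0∞ | ∃ (N : Type) (_ : MetricSpace N), Nonempty N ∧ DoublingWith N n ∧
      Tendsto (fun p : ℝ => aext p N / aext 1 N) (𝓝[>] 0) (𝓝 L)} = ∞ := by
  apply top_le_iff.mp
  apply le_sSup
  refine ⟨three 2, inferInstance, ⟨⟨(0, 0), by simp [three]⟩⟩, ?_, ?_⟩
  · intro x r hr
    obtain ⟨s, hs, h⟩ := doubling_three x r hr
    exact ⟨s, le_trans hs hn, h⟩
  · have h1 := aext_three 2 (by norm_num)
    have h2 : aext 1 (three 2) ≠ ∞ :=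
      ne_top_of_le_ne_top ENNReal.ofReal_ne_top (aext_one_three 2 (by norm_num))
    have h3 := ENNReal.Tendsto.div_const (b := aext 1 (three 2)) h1 (Or.inl ENNReal.top_ne_zero)
    rwa [ENNReal.top_div_of_ne_top h2] at h3

end Pool.Agent.Results.MP_d7144b_an.UnboundedRatio
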